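import Mathlib

/-! MP_296adc_co, the octahedron rule: a finite derivation that kills every triple of different
colours of the palette `2, 3, 4, 5` on a triangle. -/

namespace Pool.H89.LC

/-- ordered triples of colours -/
abbrev Tr := ℕ × ℕ × ℕ

/-- the six permutations of the three positions -/
def pm (i : ℕ) (t : Tr) : Tr :=
  match i with
  | 0 => t
  | 1 => (t.1, t.2.2, t.2.1)
  | 2 => (t.2.1, t.1, t.2.2)
  | 3 => (t.2.1, t.2.2, t.1)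
  | 4 => (t.2.2, t.1, t.2.1)
  | _ => (t.2.2, t.2.1, t.1)

/-- what has to be killed on the face over the side `x y` -/
def succ1 (K : List Tr) (s : Tr) : List Tr :=
  (K.filter (fun t => decide (t ≠ s))).flatMap fun t =>
    ([s.1, s.2.1].filter (fun e => decide (e ≠ t.1 ∧ e ≠ t.2.1))).map (fun e => (t.1, t.2.1, e))

/-- what has to be killed on the face over the side `y z` -/
def succ2 (K : List Tr) (s : Tr) : List Tr :=
  (K.filter (fun t => decide (t ≠ s))).flatMap fun t =>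
    ([s.2.1, s.2.2].filter (fun e => decide (e ≠ t.2.1 ∧ e ≠ t.2.2))).map
      (fun e => (t.2.1, t.2.2, e))

/-- what has to be killed on the face over the side `z x` -/
def succ3 (K : List Tr) (s : Tr) : List Tr :=
  (K.filter (fun t => decide (t ≠ s))).flatMap fun t =>
    ([s.2.2, s.1].filter (fun e => decide (e ≠ t.2.2 ∧ e ≠ t.1))).map (fun e => (t.2.2, t.1, e))

/-- inclusion of lists of triples -/
def sub (A B : List Tr) : Bool := A.all fun t => decide (t ∈ B)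

/-- one step of the derivation: the set, the special triple, and for each of the three faces the
number of an earlier set together with a permutation -/
abbrev Step := List Tr × Tr × (ℕ × ℕ) × (ℕ × ℕ) × (ℕ × ℕ)

/-- the check of one step -/
def chk (acc : List (List Tr)) (st : Step) : Bool :=
  decide (st.2.1 ∈ st.1) &&
  decide (2 ≤ st.2.1.1 ∧ 2 ≤ st.2.1.2.1 ∧ 2 ≤ st.2.1.2.2 ∧ st.2.1.1 ≤ 5 ∧ st.2.1.2.1 ≤ 5 ∧
    st.2.1.2.2 ≤ 5 ∧ st.2.1.1 ≠ st.2.1.2.1 ∧ st.2.1.2.1 ≠ st.2.1.2.2 ∧ st.2.1.2.2 ≠ st.2.1.1) &&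
  (sub (succ1 st.1 st.2.1) ((acc.getD st.2.2.1.1 []).map (pm st.2.2.1.2)) &&
  (sub (succ2 st.1 st.2.1) ((acc.getD st.2.2.2.1.1 []).map (pm st.2.2.2.1.2)) &&
   sub (succ3 st.1 st.2.1) ((acc.getD st.2.2.2.2.1 []).map (pm st.2.2.2.2.2))))

/-- the check of a derivation -/
def run : List (List Tr) → List Step → Bool
  | _, [] => true
  | acc, st :: l => chk acc st && run (acc ++ [st.1]) l

/-- the derivation for four colours -/
def steps : List Step := [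
  ([(2,3,4)], (2,3,4), (0,0), (0,0), (0,0)),
  ([(2,3,4), (3,4,2)], (2,3,4), (1,3), (1,4), (1,0)),
  ([(2,3,5)], (2,3,5), (0,0), (0,0), (0,0)),
  ([(3,4,5)], (3,4,5), (0,0), (0,0), (0,0)),
  ([(2,4,5)], (2,4,5), (0,0), (0,0), (0,0)),
  ([(2,3,4), (5,3,4)], (2,3,4), (3,5), (0,0), (5,3)),
  ([(2,3,5), (3,5,4)], (2,3,5), (3,3), (4,5), (6,5)),
  ([(2,3,4), (2,5,4)], (2,3,4), (3,1), (4,5), (0,0)),
  ([(2,3,5), (5,2,4)], (2,3,5), (3,4), (8,1), (5,3)),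
  ([(2,3,4), (2,3,5), (3,2,5)], (2,3,5), (0,0), (7,1), (9,5)),
  ([(2,3,5), (4,5,2)], (4,5,2), (10,0), (3,3), (5,4)),
  ([(2,4,5), (4,5,3)], (2,4,5), (5,3), (4,4), (6,3)),
  ([(2,3,4), (2,5,4), (4,5,2)], (2,5,4), (11,0), (12,4), (0,0)),
  ([(2,3,4), (2,3,5), (4,2,3), (4,2,5), (4,3,2), (4,3,5)], (4,3,2), (2,4), (10,3), (13,3)),
  ([(2,3,5), (3,5,2)], (2,3,5), (3,3), (3,4), (3,0)),
  ([(2,3,4), (2,5,4), (5,3,4)], (2,3,4), (15,5), (4,5), (5,3)),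
  ([(2,3,5), (2,4,5), (5,4,2)], (2,3,5), (14,4), (16,4), (0,0)),
  ([(2,3,5), (4,3,5), (4,5,3)], (2,3,5), (14,1), (0,0), (16,3)),
  ([(2,3,4), (2,5,3), (2,5,4), (3,5,2), (3,5,4)], (2,5,3), (15,0), (18,4), (14,0)),
  ([(2,3,4), (2,3,5), (5,2,3), (5,2,4), (5,3,2), (5,3,4)], (2,3,5), (10,4), (19,1), (17,3)),
  ([(2,4,5), (2,5,4), (3,4,5), (3,5,4)], (2,4,5), (14,3), (0,0), (20,5)),
  ([(2,3,4), (2,5,4), (5,2,4), (5,3,2), (5,3,4)], (2,5,4), (20,0), (14,2), (13,0)),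
  ([(2,3,4), (2,3,5), (2,4,5), (2,5,4), (5,2,4), (5,3,4)], (2,4,5), (22,0), (21,0), (17,2)),
  ([(2,3,4), (2,5,3), (2,5,4), (4,5,3)], (2,5,3), (11,0), (18,2), (2,3)),
  ([(2,3,4), (2,5,4), (4,3,2), (4,5,2)], (2,3,4), (14,1), (24,2), (0,0)),
  ([(2,3,4), (5,3,2), (5,3,4), (5,4,2)], (5,4,2), (20,0), (14,2), (17,2)),
  ([(2,3,4), (2,4,3), (5,3,4), (5,4,3)], (2,3,4), (20,1), (0,0), (26,2)),
  ([(2,3,4), (2,3,5), (2,4,5), (3,4,5), (5,3,4)], (3,4,5), (27,0), (21,0), (23,4)),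
  ([(2,3,5), (2,4,5), (3,4,5), (5,3,2), (5,4,2), (5,4,3)], (3,4,5), (27,0), (28,2), (20,1)),
  ([(2,3,4), (2,3,5), (2,4,3), (2,5,3), (4,2,5), (4,3,5), (4,5,2), (4,5,3)], (2,3,4), (14,1), (29,1), (25,2)),
  ([(2,4,5), (2,5,4), (3,4,5), (3,5,4), (4,2,5), (4,3,5), (5,2,4), (5,3,4)], (2,4,5), (30,3), (21,0), (23,5)),
  ([(2,3,4), (2,3,5), (2,4,3), (2,4,5), (2,5,3), (2,5,4), (3,2,4), (3,2,5), (3,4,2), (3,4,5), (3,5,2), (3,5,4)], (2,4,5), (14,3), (31,0), (20,5)),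
  ([(2,3,4), (2,3,5), (2,4,3), (2,4,5), (4,3,2), (4,3,5)], (2,3,4), (2,5), (27,2), (13,2)),
  ([(2,3,4), (2,5,4), (3,2,4), (3,5,2), (3,5,4), (4,5,2), (5,2,4), (5,3,2), (5,3,4), (5,4,2)], (2,3,4), (32,3), (33,4), (25,0)),
  ([(2,3,4), (2,3,5), (2,4,3), (2,4,5), (3,4,2), (3,4,5), (4,3,2), (4,3,5), (5,3,2), (5,3,4), (5,4,2), (5,4,3)], (2,3,4), (32,3), (27,2), (34,0)),
  ([(2,3,4), (2,3,5), (2,4,3), (2,4,5), (2,5,3), (2,5,4), (4,2,3), (4,2,5), (4,3,2), (4,3,5), (4,5,2), (4,5,3)], (2,3,4), (14,1), (35,1), (25,2)),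
  ([(2,3,4), (2,3,5), (2,4,3), (2,4,5), (2,5,3), (2,5,4), (3,2,4), (3,2,5), (3,4,2), (3,4,5), (3,5,2), (3,5,4), (4,2,3), (4,2,5), (4,3,2), (4,3,5), (4,5,2), (4,5,3), (5,2,3), (5,2,4), (5,3,2), (5,3,4), (5,4,2), (5,4,3)], (2,3,4), (32,3), (35,1), (36,3))]

theorem run_steps : run [[]] steps = true := by decide +kernel

theorem sub_iff {A B : List Tr} : sub A B = true ↔ ∀ t ∈ A, t ∈ B := by
  simp [sub, List.all_eq_true]

/-- soundness of the derivation for every notion of killed set that has the octahedron rule -/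
theorem run_sound (Kl : List Tr → Prop) (hnil : Kl [])
    (hmono : ∀ A B : List Tr, (∀ t ∈ A, t ∈ B) → Kl B → Kl A)
    (hperm : ∀ (A : List Tr) (i : ℕ), Kl A → Kl (A.map (pm i)))
    (hoct : ∀ (K : List Tr) (s : Tr), (2 ≤ s.1 ∧ 2 ≤ s.2.1 ∧ 2 ≤ s.2.2 ∧ s.1 ≤ 5 ∧ s.2.1 ≤ 5 ∧
      s.2.2 ≤ 5 ∧ s.1 ≠ s.2.1 ∧ s.2.1 ≠ s.2.2 ∧ s.2.2 ≠ s.1) →
      Kl (succ1 K s) → Kl (succ2 K s) → Kl (succ3 K s) → Kl K) :
    ∀ (l : List Step) (acc : List (List Tr)), (∀ K ∈ acc, Kl K) → run acc l = true →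
      ∀ st ∈ l, Kl st.1 := by
  have hget : ∀ (acc : List (List Tr)), (∀ K ∈ acc, Kl K) → ∀ j, Kl (acc.getD j []) := by
    intro acc hacc j
    by_cases hj : j < acc.length
    · rw [List.getD_eq_getElem _ _ hj]
      exact hacc _ (List.getElem_mem hj)
    · rw [List.getD_eq_default _ _ (not_lt.1 hj)]
      exact hnil
  intro l
  induction l with
  | nil => intro acc _ _ st h; simp at h
  | cons a l ih =>
    intro acc hacc hrun
    simp only [run, Bool.and_eq_true] at hrun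
    obtain ⟨h1, h2⟩ := hrun
    have ha : Kl a.1 := by
      simp only [chk, Bool.and_eq_true, decide_eq_true_eq, sub_iff] at h1
      obtain ⟨⟨-, h3⟩, h4, h5, h6⟩ := h1
      exact hoct a.1 a.2.1 h3
        (hmono _ _ h4 (hperm _ _ (hget acc hacc _)))
        (hmono _ _ h5 (hperm _ _ (hget acc hacc _)))
        (hmono _ _ h6 (hperm _ _ (hget acc hacc _)))
    have hacc' : ∀ K ∈ acc ++ [a.1], Kl K := by
      intro K hK
      rcases List.mem_append.1 hK with h | h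
      · exact hacc K h
      · rw [List.mem_singleton.1 h]; exact ha
    intro st hst
    rcases List.mem_cons.1 hst with h | h
    · rw [h]; exact ha
    · exact ih _ hacc' h2 st h

/-- all ordered triples of different colours of the palette -/
def full : List Tr := (steps.getLast (by decide)).1

theorem mem_full : ∀ a b c : ℕ, 2 ≤ a → a ≤ 5 → 2 ≤ b → b ≤ 5 → 2 ≤ c → c ≤ 5 → a ≠ b → b ≠ c →
    c ≠ a → (a, b, c) ∈ full := by
  intro a b c h1 h2 h3 h4 h5 h6 h7 h8 h9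
  have hf : full = [(2,3,4), (2,3,5), (2,4,3), (2,4,5), (2,5,3), (2,5,4), (3,2,4), (3,2,5), (3,4,2), (3,4,5), (3,5,2), (3,5,4), (4,2,3), (4,2,5), (4,3,2), (4,3,5), (4,5,2), (4,5,3), (5,2,3), (5,2,4), (5,3,2), (5,3,4), (5,4,2), (5,4,3)] := rfl
  rw [hf]
  interval_cases a <;> interval_cases b <;> interval_cases c <;> first | omega | decide

theorem full_killed (Kl : List Tr → Prop) (hnil : Kl [])
    (hmono : ∀ A B : List Tr, (∀ t ∈ A, t ∈ B) → Kl B → Kl A)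
    (hperm : ∀ (A : List Tr) (i : ℕ), Kl A → Kl (A.map (pm i)))
    (hoct : ∀ (K : List Tr) (s : Tr), (2 ≤ s.1 ∧ 2 ≤ s.2.1 ∧ 2 ≤ s.2.2 ∧ s.1 ≤ 5 ∧ s.2.1 ≤ 5 ∧
      s.2.2 ≤ 5 ∧ s.1 ≠ s.2.1 ∧ s.2.1 ≠ s.2.2 ∧ s.2.2 ≠ s.1) →
      Kl (succ1 K s) → Kl (succ2 K s) → Kl (succ3 K s) → Kl K) : Kl full := by
  refine run_sound Kl hnil hmono hperm hoct steps [[]] ?_ run_steps _ (List.getLast_mem _)
  intro K hK
  rw [List.mem_singleton.1 hK]
  exact hnil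

/-- members of `succ1` -/
theorem mem_succ1 {K : List Tr} {s t : Tr} {e : ℕ} (h1 : t ∈ K) (h2 : t ≠ s)
    (h3 : e = s.1 ∨ e = s.2.1) (h4 : e ≠ t.1) (h5 : e ≠ t.2.1) :
    (t.1, t.2.1, e) ∈ succ1 K s := by
  unfold succ1
  simp only [List.mem_flatMap, List.mem_filter, List.mem_map, decide_eq_true_eq]
  exact ⟨t, ⟨h1, h2⟩, e, ⟨by simpa using h3, h4, h5⟩, rfl⟩

/-- members of `succ2` -/
theorem mem_succ2 {K : List Tr} {s t : Tr} {e : ℕ} (h1 : t ∈ K) (h2 : t ≠ s)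
    (h3 : e = s.2.1 ∨ e = s.2.2) (h4 : e ≠ t.2.1) (h5 : e ≠ t.2.2) :
    (t.2.1, t.2.2, e) ∈ succ2 K s := by
  unfold succ2
  simp only [List.mem_flatMap, List.mem_filter, List.mem_map, decide_eq_true_eq]
  exact ⟨t, ⟨h1, h2⟩, e, ⟨by simpa using h3, h4, h5⟩, rfl⟩

/-- members of `succ3` -/
theorem mem_succ3 {K : List Tr} {s t : Tr} {e : ℕ} (h1 : t ∈ K) (h2 : t ≠ s)
    (h3 : e = s.2.2 ∨ e = s.1) (h4 : e ≠ t.2.2) (h5 : e ≠ t.1) :
    (t.2.2, t.1, e) ∈ succ3 K s := by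
  unfold succ3
  simp only [List.mem_flatMap, List.mem_filter, List.mem_map, decide_eq_true_eq]
  exact ⟨t, ⟨h1, h2⟩, e, ⟨by simpa using h3, h4, h5⟩, rfl⟩

end Pool.H89.LC
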