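import Pool.Agent.H89.LC.Kills

/-! MP_296adc_co: from the records of the frames to plain lists of edges and faces. -/

namespace Pool.H89.LC

open Pool.TRI

def linkE (E : List (ℕ × ℕ)) (S : List Sg) : Bool :=
  E.all fun p => S.any fun s => Nat.beq s.u p.1 && Nat.beq s.v p.2

theorem linkE_spec {E : List (ℕ × ℕ)} {S : List Sg} (h : linkE E S = true) {φ : ℕ → ℕ}
    (hS : ∀ s ∈ S, φ s.u ≠ φ s.v) : ∀ p ∈ E, φ p.1 ≠ φ p.2 := by
  intro p hp
  unfold linkE at h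
  have h1 := List.all_eq_true.1 h p hp
  obtain ⟨s, hs, h2⟩ := List.any_eq_true.1 h1
  rw [Bool.and_eq_true, Nat.beq_eq, Nat.beq_eq] at h2
  rw [← h2.1, ← h2.2]
  exact hS s hs

def linkF (F : List Tr) (Fs : List Fc) : Bool :=
  F.all fun t => Fs.any fun f => Nat.beq f.u t.1 && (Nat.beq f.v t.2.1 && Nat.beq f.w t.2.2)

theorem linkF_spec {F : List Tr} {Fs : List Fc} (h : linkF F Fs = true) {φ : ℕ → ℕ}
    {K : ℕ → ℕ → ℕ → Prop} (hF : ∀ f ∈ Fs, ¬ K (φ f.u) (φ f.v) (φ f.w)) :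
    ∀ t ∈ F, ¬ K (φ t.1) (φ t.2.1) (φ t.2.2) := by
  intro t ht
  unfold linkF at h
  have h1 := List.all_eq_true.1 h t ht
  obtain ⟨s, hs, h2⟩ := List.any_eq_true.1 h1
  rw [Bool.and_eq_true, Bool.and_eq_true, Nat.beq_eq, Nat.beq_eq, Nat.beq_eq] at h2
  rw [← h2.1, ← h2.2.1, ← h2.2.2]
  exact hF s hs

def hasP (E : List (ℕ × ℕ)) (a b : ℕ) : Bool :=
  E.any fun p => (Nat.beq p.1 a && Nat.beq p.2 b) || (Nat.beq p.1 b && Nat.beq p.2 a)

theorem hasP_spec {E : List (ℕ × ℕ)} {a b : ℕ} (h : hasP E a b = true) {φ : ℕ → ℕ}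
    (hE : ∀ p ∈ E, φ p.1 ≠ φ p.2) : φ a ≠ φ b := by
  unfold hasP at h
  obtain ⟨p, hp, h2⟩ := List.any_eq_true.1 h
  rw [Bool.or_eq_true, Bool.and_eq_true, Bool.and_eq_true, Nat.beq_eq, Nat.beq_eq, Nat.beq_eq,
    Nat.beq_eq] at h2
  rcases h2 with ⟨rfl, rfl⟩ | ⟨rfl, rfl⟩
  · exact hE p hp
  · exact (hE p hp).symm

/-- every listed face has its three sides among the edges -/
def okFaces (n : ℕ) (E : List (ℕ × ℕ)) (F : List Tr) : Bool :=
  F.all fun t => Nat.blt t.1 n && (Nat.blt t.2.1 n && (Nat.blt t.2.2 n &&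
    (hasP E t.1 t.2.1 && (hasP E t.2.1 t.2.2 && hasP E t.2.2 t.1))))

theorem sss_of_full {n : ℕ} {E : List (ℕ × ℕ)} {F : List Tr} (h : okFaces n E F = true)
    {φ : ℕ → ℕ} (hE : ∀ p ∈ E, φ p.1 ≠ φ p.2) (h5 : ∀ a, a < n → φ a ≤ 5)
    (hF : ∀ t ∈ F, (φ t.1, φ t.2.1, φ t.2.2) ∉ full) :
    ∀ t ∈ F, ¬ (2 ≤ φ t.1 ∧ 2 ≤ φ t.2.1 ∧ 2 ≤ φ t.2.2) := by
  rintro t ht ⟨h1, h2, h3⟩
  unfold okFaces at h
  have h4 := List.all_eq_true.1 h t ht
  simp only [Bool.and_eq_true, Nat.blt_eq] at h4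
  obtain ⟨n1, n2, n3, e1, e2, e3⟩ := h4
  exact hF t ht (mem_full _ _ _ h1 (h5 _ n1) h2 (h5 _ n2) h3 (h5 _ n3) (hasP_spec e1 hE)
    (hasP_spec e2 hE) (hasP_spec e3 hE))

/-- the lists of the core, as lists of numbers -/
def okLists (n : ℕ) (Ls : List (List ℕ)) : Bool :=
  (List.range n).all fun a => Nat.blt a 3 ||
    (match Ls.getD a [] with
      | [x, y, c, d] => Nat.beq x 0 && (Nat.beq y 1 && (Nat.ble 2 c && (Nat.ble c 5 &&
          (Nat.ble 2 d && (Nat.ble d 5 && !(Nat.beq c d))))))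
      | _ => false)

theorem okLists_spec {n : ℕ} {Ls : List (List ℕ)} (h : okLists n Ls = true) (a : ℕ)
    (h3 : 3 ≤ a) (hn : a < n) : LL (Ls.getD a []).toFinset := by
  unfold okLists at h
  have h1 := List.all_eq_true.1 h a (List.mem_range.2 hn)
  rw [Bool.or_eq_true] at h1
  rcases h1 with h1 | h1
  · rw [Nat.blt_eq] at h1
    omega
  · split at h1
    · rename_i x y c d he
      simp only [Bool.and_eq_true, Nat.beq_eq, Nat.ble_eq, Bool.not_eq_true'] at h1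
      obtain ⟨rfl, rfl, c1, c2, d1, d2, hcd⟩ := h1
      refine ⟨c, d, c1, c2, d1, d2, ?_, ?_⟩
      · rintro rfl
        simp at hcd
      · rw [he]
        simp
    · cases h1

theorem LL_le {s : Finset ℕ} (h : LL s) {c : ℕ} (hc : c ∈ s) : c ≤ 5 := by
  obtain ⟨a, b, h1, h2, h3, h4, -, rfl⟩ := h
  simp only [Finset.mem_insert, Finset.mem_singleton] at hc
  omega

end Pool.H89.LC
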