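import Pool.Agent.H89.LC.Comb

/-! MP_296adc_co: the data of the final frame and its colouring argument. -/

namespace Pool.H89.LC

/-- edges of the final frame: Moser spindle on `0, ..., 6`, and for each of its edges two further
vertices joined to both ends -/
def E29 : List (ℕ × ℕ) := [(0,1), (0,2), (1,2), (1,3), (2,3), (0,4), (0,5), (4,5), (4,6), (5,6), (3,6), (0,7), (1,7), (0,8), (1,8), (0,9), (2,9), (0,10), (2,10), (1,11), (2,11), (1,12), (2,12), (1,13), (3,13), (1,14), (3,14), (2,15), (3,15), (2,16), (3,16), (0,17), (4,17), (0,18), (4,18), (0,19), (5,19), (0,20), (5,20), (4,21), (5,21), (4,22), (5,22), (4,23), (6,23), (4,24), (6,24), (5,25), (6,25), (5,26), (6,26), (3,27), (6,27), (3,28), (6,28)]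

/-- designated faces of the final frame -/
def F29 : List (ℕ × ℕ × ℕ) := [(0,1,7), (1,0,8), (0,2,9), (2,0,10), (1,2,11), (2,1,12), (1,3,13), (3,1,14), (2,3,15), (3,2,16), (0,4,17), (4,0,18), (0,5,19), (5,0,20), (4,5,21), (5,4,22), (4,6,23), (6,4,24), (5,6,25), (6,5,26), (3,6,27), (6,3,28)]

/-- coordinates of the final frame -/
def V29 : List (ℕ × ℕ) := [(1201,2101), (1,1301), (801,901), (201,101), (2401,1301), (1601,901), (2201,101), (641,1641), (561,1761), (1061,1481), (941,1521), (421,1141), (381,1061), (161,711), (41,691), (541,471), (461,531), (1841,1761), (1761,1641), (1461,1521), (1341,1481), (2021,1061), (1981,1141), (2361,691), (2241,711), (1941,531), (1861,471), (1201,201), (1201,1)]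

theorem final_comb (φ : ℕ → ℕ) (hE : ∀ p ∈ E29, φ p.1 ≠ φ p.2)
    (hL : ∀ a, a < 29 → φ a ∈ ({0, 1, 2, 3} : Finset ℕ))
    (hF : ∀ t ∈ F29, ¬ K2 (φ t.1) (φ t.2.1) (φ t.2.2)) : False := by
  have e : ∀ x y z z' : ℕ, x < 29 → y < 29 → z < 29 → z' < 29 → (x, y) ∈ E29 → (x, z) ∈ E29 →
      (y, z) ∈ E29 → (x, z') ∈ E29 → (y, z') ∈ E29 → (x, y, z) ∈ F29 → (y, x, z') ∈ F29 →
      min (φ x) 2 ≠ min (φ y) 2 := by
    intro x y z z' hx hy hz hz' h1 h2 h3 h4 h5 h6 h7
    exact edge_comb (hL x hx) (hL y hy) (hL z hz) (hL z' hz') (hE _ h1) (hE _ h2) (hE _ h3)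
      (hE _ h4) (hE _ h5) (hF _ h6) (hF _ h7)
  exact moser (Nat.min_le_right _ _) (Nat.min_le_right _ _) (Nat.min_le_right _ _)
    (Nat.min_le_right _ _) (Nat.min_le_right _ _) (Nat.min_le_right _ _) (Nat.min_le_right _ _)
    (e 0 1 7 8 (by decide) (by decide) (by decide) (by decide) (by decide) (by decide) (by decide) (by decide) (by decide) (by decide) (by decide))
    (e 0 2 9 10 (by decide) (by decide) (by decide) (by decide) (by decide) (by decide) (by decide) (by decide) (by decide) (by decide) (by decide))
    (e 1 2 11 12 (by decide) (by decide) (by decide) (by decide) (by decide) (by decide) (by decide) (by decide) (by decide) (by decide) (by decide))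
    (e 1 3 13 14 (by decide) (by decide) (by decide) (by decide) (by decide) (by decide) (by decide) (by decide) (by decide) (by decide) (by decide))
    (e 2 3 15 16 (by decide) (by decide) (by decide) (by decide) (by decide) (by decide) (by decide) (by decide) (by decide) (by decide) (by decide))
    (e 0 4 17 18 (by decide) (by decide) (by decide) (by decide) (by decide) (by decide) (by decide) (by decide) (by decide) (by decide) (by decide))
    (e 0 5 19 20 (by decide) (by decide) (by decide) (by decide) (by decide) (by decide) (by decide) (by decide) (by decide) (by decide) (by decide))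
    (e 4 5 21 22 (by decide) (by decide) (by decide) (by decide) (by decide) (by decide) (by decide) (by decide) (by decide) (by decide) (by decide))
    (e 4 6 23 24 (by decide) (by decide) (by decide) (by decide) (by decide) (by decide) (by decide) (by decide) (by decide) (by decide) (by decide))
    (e 5 6 25 26 (by decide) (by decide) (by decide) (by decide) (by decide) (by decide) (by decide) (by decide) (by decide) (by decide) (by decide))
    (e 3 6 27 28 (by decide) (by decide) (by decide) (by decide) (by decide) (by decide) (by decide) (by decide) (by decide) (by decide) (by decide))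

end Pool.H89.LC
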