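import Pool.Agent.H89.LC.SSS

/-! MP_296adc_co: the colouring arguments for the octahedron and for the final frame. -/

namespace Pool.H89.LC

/-- the octahedron rule, colouring part -/
theorem oct_comb (K : List Tr) (s : Tr) (x y z p q r : ℕ)
    (px : p ≠ x) (py : p ≠ y) (qy : q ≠ y) (qz : q ≠ z) (rz : r ≠ z) (rx : r ≠ x)
    (pq : p ≠ q) (qr : q ≠ r) (pr : p ≠ r)
    (Lp : p ∈ ({0, 1, s.1, s.2.1} : Finset ℕ)) (Lq : q ∈ ({0, 1, s.2.1, s.2.2} : Finset ℕ))
    (Lr : r ∈ ({0, 1, s.2.2, s.1} : Finset ℕ))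
    (k1 : (x, y, p) ∉ succ1 K s) (k2 : (y, z, q) ∉ succ2 K s) (k3 : (z, x, r) ∉ succ3 K s) :
    (x, y, z) ∉ K := by
  intro hK
  have hp : p = 0 ∨ p = 1 := by
    simp only [Finset.mem_insert, Finset.mem_singleton] at Lp
    rcases Lp with h | h | h
    · exact Or.inl h
    · exact Or.inr h
    · exfalso
      by_cases hs : (x, y, z) = s
      · rw [← hs] at h
        rcases h with h | h
        · exact px h
        · exact py h
      · exact k1 (mem_succ1 hK hs h px py)
  have hq : q = 0 ∨ q = 1 := by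
    simp only [Finset.mem_insert, Finset.mem_singleton] at Lq
    rcases Lq with h | h | h
    · exact Or.inl h
    · exact Or.inr h
    · exfalso
      by_cases hs : (x, y, z) = s
      · rw [← hs] at h
        rcases h with h | h
        · exact qy h
        · exact qz h
      · exact k2 (mem_succ2 hK hs h qy qz)
  have hr : r = 0 ∨ r = 1 := by
    simp only [Finset.mem_insert, Finset.mem_singleton] at Lr
    rcases Lr with h | h | h
    · exact Or.inl h
    · exact Or.inr h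
    · exfalso
      by_cases hs : (x, y, z) = s
      · rw [← hs] at h
        rcases h with h | h
        · exact rz h
        · exact rx h
      · exact k3 (mem_succ3 hK hs h rz rx)
  omega

/-- the killed boundary colourings of the core -/
def K2 (a b c : ℕ) : Prop := a = 2 ∧ b = 3 ∧ (c = 0 ∨ c = 1)

/-- one side of an edge of the final frame -/
theorem side_comb {x y z : ℕ} (hz : z ∈ ({0, 1, 2, 3} : Finset ℕ)) (h1 : x ≠ z) (h2 : y ≠ z)
    (hK : ¬ K2 x y z) : ¬ (x = 2 ∧ y = 3) := by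
  rintro ⟨rfl, rfl⟩
  simp only [Finset.mem_insert, Finset.mem_singleton] at hz
  apply hK
  exact ⟨rfl, rfl, by omega⟩

/-- both sides of an edge of the final frame: the ends are in different classes -/
theorem edge_comb {x y z z' : ℕ} (hx : x ∈ ({0, 1, 2, 3} : Finset ℕ))
    (hy : y ∈ ({0, 1, 2, 3} : Finset ℕ)) (hz : z ∈ ({0, 1, 2, 3} : Finset ℕ))
    (hz' : z' ∈ ({0, 1, 2, 3} : Finset ℕ)) (hxy : x ≠ y) (h1 : x ≠ z) (h2 : y ≠ z)
    (h3 : x ≠ z') (h4 : y ≠ z') (hK : ¬ K2 x y z) (hK' : ¬ K2 y x z') :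
    min x 2 ≠ min y 2 := by
  have a := side_comb hz h1 h2 hK
  have b := side_comb hz' h4 h3 hK'
  simp only [Finset.mem_insert, Finset.mem_singleton] at hx hy
  omega

theorem diamond {a b c d : ℕ} (ha : a ≤ 2) (hb : b ≤ 2) (hc : c ≤ 2) (hd : d ≤ 2)
    (ab : a ≠ b) (ac : a ≠ c) (bc : b ≠ c) (bd : b ≠ d) (cd : c ≠ d) : a = d := by omega

/-- the Moser spindle is not 3-colourable -/
theorem moser {a b c d e f g : ℕ} (ha : a ≤ 2) (hb : b ≤ 2) (hc : c ≤ 2) (hd : d ≤ 2)
    (he : e ≤ 2) (hf : f ≤ 2) (hg : g ≤ 2)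
    (ab : a ≠ b) (ac : a ≠ c) (bc : b ≠ c) (bd : b ≠ d) (cd : c ≠ d)
    (ae : a ≠ e) (af : a ≠ f) (ef : e ≠ f) (eg : e ≠ g) (fg : f ≠ g) (dg : d ≠ g) : False :=
  dg ((diamond ha hb hc hd ab ac bc bd cd).symm.trans (diamond ha he hf hg ae af ef eg fg))

end Pool.H89.LC
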