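import Pool.Agent.H89.LC.Link
import Pool.Agent.H40.LamDP.Dp

/-! MP_296adc_co: the core, 33 vertices, 88 edges, 51 triangular faces besides the
outer one; the outer corners are `0`, `1`, `2`. -/

set_option maxRecDepth 100000

namespace Pool.H89.LC.Core33

open Pool.TRI Pool.Agent.H40.LamDP

/-- the frame -/
def D : FData where
  N := 200
  n := 33
  C := [(0, 0), (200, 0), (0, 200), (101, 4), (51, 10), (27, 13), (28, 38), (24, 33), (32, 28), (90, 2),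
    (35, 19), (61, 4), (12, 123), (26, 54), (27, 43), (22, 144), (22, 136), (39, 47), (27, 107),
    (51, 87), (6, 98), (11, 69), (15, 155), (20, 9), (24, 124), (17, 141), (29, 34), (21, 10),
    (63, 29), (33, 13), (31, 113), (30, 45), (32, 37)]
  S := [⟨0, 1, 0, 0, 200, 0⟩, ⟨0, 2, 0, 0, 0, 200⟩, ⟨0, 4, 0, 0, 51, 10⟩, ⟨0, 7, 0, 0, 24, 33⟩, ⟨0, 8, 0,
    0, 32, 28⟩, ⟨0, 9, 0, 0, 90, 2⟩, ⟨0, 11, 0, 0, 61, 4⟩, ⟨0, 13, 0, 0, 26, 54⟩, ⟨0, 20, 0, 0, 6,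
    98⟩, ⟨0, 21, 0, 0, 11, 69⟩, ⟨0, 23, 0, 0, 20, 9⟩, ⟨0, 27, 0, 0, 21, 10⟩, ⟨0, 29, 0, 0, 33,
    13⟩, ⟨1, 2, 200, 0, 0, 200⟩, ⟨1, 3, 200, 0, 101, 4⟩, ⟨1, 9, 200, 0, 90, 2⟩, ⟨1, 19, 200, 0,
    51, 87⟩, ⟨1, 28, 200, 0, 63, 29⟩, ⟨2, 12, 0, 200, 12, 123⟩, ⟨2, 15, 0, 200, 22, 144⟩, ⟨2, 19,
    0, 200, 51, 87⟩, ⟨2, 20, 0, 200, 6, 98⟩, ⟨2, 22, 0, 200, 15, 155⟩, ⟨2, 25, 0, 200, 17, 141⟩,
    ⟨3, 4, 101, 4, 51, 10⟩, ⟨3, 9, 101, 4, 90, 2⟩, ⟨3, 11, 101, 4, 61, 4⟩, ⟨4, 11, 51, 10, 61, 4⟩,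
    ⟨4, 28, 51, 10, 63, 29⟩, ⟨4, 29, 51, 10, 33, 13⟩, ⟨5, 10, 27, 13, 35, 19⟩, ⟨5, 23, 27, 13, 20,
    9⟩, ⟨5, 27, 27, 13, 21, 10⟩, ⟨5, 29, 27, 13, 33, 13⟩, ⟨6, 7, 28, 38, 24, 33⟩, ⟨6, 14, 28, 38,
    27, 43⟩, ⟨6, 26, 28, 38, 29, 34⟩, ⟨6, 31, 28, 38, 30, 45⟩, ⟨6, 32, 28, 38, 32, 37⟩, ⟨7, 8, 24,
    33, 32, 28⟩, ⟨7, 13, 24, 33, 26, 54⟩, ⟨7, 14, 24, 33, 27, 43⟩, ⟨7, 26, 24, 33, 29, 34⟩, ⟨8,
    10, 32, 28, 35, 19⟩, ⟨8, 17, 32, 28, 39, 47⟩, ⟨8, 26, 32, 28, 29, 34⟩, ⟨8, 28, 32, 28, 63,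
    29⟩, ⟨8, 32, 32, 28, 32, 37⟩, ⟨9, 11, 90, 2, 61, 4⟩, ⟨10, 27, 35, 19, 21, 10⟩, ⟨10, 28, 35,
    19, 63, 29⟩, ⟨10, 29, 35, 19, 33, 13⟩, ⟨12, 18, 12, 123, 27, 107⟩, ⟨12, 20, 12, 123, 6, 98⟩,
    ⟨12, 21, 12, 123, 11, 69⟩, ⟨12, 25, 12, 123, 17, 141⟩, ⟨13, 14, 26, 54, 27, 43⟩, ⟨13, 17, 26,
    54, 39, 47⟩, ⟨13, 18, 26, 54, 27, 107⟩, ⟨13, 19, 26, 54, 51, 87⟩, ⟨13, 21, 26, 54, 11, 69⟩,
    ⟨13, 31, 26, 54, 30, 45⟩, ⟨14, 31, 27, 43, 30, 45⟩, ⟨15, 16, 22, 144, 22, 136⟩, ⟨15, 19, 22,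
    144, 51, 87⟩, ⟨15, 22, 22, 144, 15, 155⟩, ⟨16, 22, 22, 136, 15, 155⟩, ⟨16, 24, 22, 136, 24,
    124⟩, ⟨16, 25, 22, 136, 17, 141⟩, ⟨16, 30, 22, 136, 31, 113⟩, ⟨17, 19, 39, 47, 51, 87⟩, ⟨17,
    28, 39, 47, 63, 29⟩, ⟨17, 31, 39, 47, 30, 45⟩, ⟨17, 32, 39, 47, 32, 37⟩, ⟨18, 19, 27, 107, 51,
    87⟩, ⟨18, 24, 27, 107, 24, 124⟩, ⟨18, 25, 27, 107, 17, 141⟩, ⟨18, 30, 27, 107, 31, 113⟩, ⟨19,
    28, 51, 87, 63, 29⟩, ⟨19, 30, 51, 87, 31, 113⟩, ⟨20, 21, 6, 98, 11, 69⟩, ⟨22, 25, 15, 155, 17,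
    141⟩, ⟨23, 27, 20, 9, 21, 10⟩, ⟨23, 29, 20, 9, 33, 13⟩, ⟨24, 25, 24, 124, 17, 141⟩, ⟨24, 30,
    24, 124, 31, 113⟩, ⟨26, 32, 29, 34, 32, 37⟩, ⟨28, 29, 63, 29, 33, 13⟩]
  F := [⟨0, 1, 9, 0, 0, 200, 0, 90, 2⟩, ⟨0, 2, 20, 0, 0, 0, 200, 6, 98⟩, ⟨0, 4, 11, 0, 0, 51, 10, 61, 4⟩,
    ⟨0, 4, 29, 0, 0, 51, 10, 33, 13⟩, ⟨0, 7, 8, 0, 0, 24, 33, 32, 28⟩, ⟨0, 7, 13, 0, 0, 24, 33,
    26, 54⟩, ⟨0, 9, 11, 0, 0, 90, 2, 61, 4⟩, ⟨0, 13, 21, 0, 0, 26, 54, 11, 69⟩, ⟨0, 20, 21, 0, 0,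
    6, 98, 11, 69⟩, ⟨0, 23, 27, 0, 0, 20, 9, 21, 10⟩, ⟨0, 23, 29, 0, 0, 20, 9, 33, 13⟩, ⟨1, 2, 19,
    200, 0, 0, 200, 51, 87⟩, ⟨1, 3, 9, 200, 0, 101, 4, 90, 2⟩, ⟨1, 19, 28, 200, 0, 51, 87, 63,
    29⟩, ⟨2, 12, 20, 0, 200, 12, 123, 6, 98⟩, ⟨2, 12, 25, 0, 200, 12, 123, 17, 141⟩, ⟨2, 15, 19,
    0, 200, 22, 144, 51, 87⟩, ⟨2, 15, 22, 0, 200, 22, 144, 15, 155⟩, ⟨2, 22, 25, 0, 200, 15, 155,
    17, 141⟩, ⟨3, 4, 11, 101, 4, 51, 10, 61, 4⟩, ⟨3, 9, 11, 101, 4, 90, 2, 61, 4⟩, ⟨4, 28, 29, 51,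
    10, 63, 29, 33, 13⟩, ⟨5, 10, 27, 27, 13, 35, 19, 21, 10⟩, ⟨5, 10, 29, 27, 13, 35, 19, 33, 13⟩,
    ⟨5, 23, 27, 27, 13, 20, 9, 21, 10⟩, ⟨5, 23, 29, 27, 13, 20, 9, 33, 13⟩, ⟨6, 7, 14, 28, 38, 24,
    33, 27, 43⟩, ⟨6, 7, 26, 28, 38, 24, 33, 29, 34⟩, ⟨6, 14, 31, 28, 38, 27, 43, 30, 45⟩, ⟨6, 26,
    32, 28, 38, 29, 34, 32, 37⟩, ⟨7, 8, 26, 24, 33, 32, 28, 29, 34⟩, ⟨7, 13, 14, 24, 33, 26, 54,
    27, 43⟩, ⟨8, 10, 28, 32, 28, 35, 19, 63, 29⟩, ⟨8, 17, 28, 32, 28, 39, 47, 63, 29⟩, ⟨8, 17, 32,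
    32, 28, 39, 47, 32, 37⟩, ⟨8, 26, 32, 32, 28, 29, 34, 32, 37⟩, ⟨10, 28, 29, 35, 19, 63, 29, 33,
    13⟩, ⟨12, 18, 25, 12, 123, 27, 107, 17, 141⟩, ⟨12, 20, 21, 12, 123, 6, 98, 11, 69⟩, ⟨13, 14,
    31, 26, 54, 27, 43, 30, 45⟩, ⟨13, 17, 19, 26, 54, 39, 47, 51, 87⟩, ⟨13, 17, 31, 26, 54, 39,
    47, 30, 45⟩, ⟨13, 18, 19, 26, 54, 27, 107, 51, 87⟩, ⟨15, 16, 22, 22, 144, 22, 136, 15, 155⟩,
    ⟨16, 22, 25, 22, 136, 15, 155, 17, 141⟩, ⟨16, 24, 25, 22, 136, 24, 124, 17, 141⟩, ⟨16, 24, 30,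
    22, 136, 24, 124, 31, 113⟩, ⟨17, 19, 28, 39, 47, 51, 87, 63, 29⟩, ⟨18, 19, 30, 27, 107, 51,
    87, 31, 113⟩, ⟨18, 24, 25, 27, 107, 24, 124, 17, 141⟩, ⟨18, 24, 30, 27, 107, 24, 124, 31,
    113⟩]
  A := [682634134, 268960269, 39358467, 2578, 805308425, 679478272, 6509576320, 67133761, 4630643841,
    2059, 939524384, 537, 36962308, 2150514817, 2147492032, 4784132, 1128300544, 6711419136,
    1124610048, 1342611462, 2101253, 1060865, 33652740, 671088673, 1107623936, 21303300,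
    4294967744, 8389665, 537527570, 276825137, 17629184, 155712, 67240256]
  B := [10486420, 268435972, 34635778, 528, 536872960, 671088640, 67125248, 8512, 4563402880, 2050,
    671088896, 528, 34603008, 2150105216, 2147483776, 4718592, 20971520, 4563410944, 1107304448,
    1342185476, 2097156, 1056768, 33587200, 671088640, 1107296256, 20975616, 4294967424, 8389632,
    537395456, 8389648, 17301504, 147456, 67239936]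

/-- edges -/
def cE : List (ℕ × ℕ) := [(0, 1), (0, 2), (0, 4), (0, 7), (0, 8), (0, 9), (0, 11), (0, 13), (0, 20), (0, 21), (0, 23), (0,
    27), (0, 29), (1, 2), (1, 3), (1, 9), (1, 19), (1, 28), (2, 12), (2, 15), (2, 19), (2, 20),
    (2, 22), (2, 25), (3, 4), (3, 9), (3, 11), (4, 11), (4, 28), (4, 29), (5, 10), (5, 23), (5,
    27), (5, 29), (6, 7), (6, 14), (6, 26), (6, 31), (6, 32), (7, 8), (7, 13), (7, 14), (7, 26),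
    (8, 10), (8, 17), (8, 26), (8, 28), (8, 32), (9, 11), (10, 27), (10, 28), (10, 29), (12, 18),
    (12, 20), (12, 21), (12, 25), (13, 14), (13, 17), (13, 18), (13, 19), (13, 21), (13, 31), (14,
    31), (15, 16), (15, 19), (15, 22), (16, 22), (16, 24), (16, 25), (16, 30), (17, 19), (17, 28),
    (17, 31), (17, 32), (18, 19), (18, 24), (18, 25), (18, 30), (19, 28), (19, 30), (20, 21), (22,
    25), (23, 27), (23, 29), (24, 25), (24, 30), (26, 32), (28, 29)]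

/-- faces -/
def cF : List (ℕ × ℕ × ℕ) := [(0, 1, 9), (0, 2, 20), (0, 4, 11), (0, 4, 29), (0, 7, 8), (0, 7, 13), (0, 9, 11), (0, 13, 21),
    (0, 20, 21), (0, 23, 27), (0, 23, 29), (1, 2, 19), (1, 3, 9), (1, 19, 28), (2, 12, 20), (2,
    12, 25), (2, 15, 19), (2, 15, 22), (2, 22, 25), (3, 4, 11), (3, 9, 11), (4, 28, 29), (5, 10,
    27), (5, 10, 29), (5, 23, 27), (5, 23, 29), (6, 7, 14), (6, 7, 26), (6, 14, 31), (6, 26, 32),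
    (7, 8, 26), (7, 13, 14), (8, 10, 28), (8, 17, 28), (8, 17, 32), (8, 26, 32), (10, 28, 29),
    (12, 18, 25), (12, 20, 21), (13, 14, 31), (13, 17, 19), (13, 17, 31), (13, 18, 19), (15, 16,
    22), (16, 22, 25), (16, 24, 25), (16, 24, 30), (17, 19, 28), (18, 19, 30), (18, 24, 25), (18,
    24, 30)]

/-- lists -/
def cL : List (List ℕ) := [[2], [3], [0, 1], [0, 1, 3, 5], [0, 1, 2, 5], [0, 1, 3, 5], [0, 1, 3, 5], [0, 1, 3, 4], [0, 1, 2,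
    4], [0, 1, 3, 5], [0, 1, 3, 4], [0, 1, 3, 5], [0, 1, 3, 5], [0, 1, 2, 5], [0, 1, 2, 3], [0, 1,
    2, 4], [0, 1, 2, 3], [0, 1, 4, 5], [0, 1, 2, 5], [0, 1, 3, 5], [0, 1, 3, 4], [0, 1, 2, 4], [0,
    1, 4, 5], [0, 1, 4, 5], [0, 1, 3, 5], [0, 1, 3, 5], [0, 1, 3, 5], [0, 1, 2, 4], [0, 1, 3, 4],
    [0, 1, 2, 3], [0, 1, 3, 5], [0, 1, 2, 3], [0, 1, 3, 5]]

/-- order of the dynamic program -/
def cP : List (ℕ × List ℕ) := [(1, []), (0, []), (9, []), (3, []), (11, [2]), (4, [1, 1]), (29, []), (28, [2]), (10, []), (5,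
    []), (23, [4]), (27, [0, 0, 0]), (2, []), (8, [2]), (19, [5]), (17, [4]), (13, []), (7, []),
    (32, []), (26, [6]), (6, [1, 1]), (14, [2]), (31, [0, 0, 0, 1]), (21, []), (20, [5]), (12, [1,
    1]), (18, [2]), (25, [2]), (30, []), (24, [3]), (16, [1, 1]), (15, [3]), (22, [0, 0, 0, 0,
    0])]

theorem check_D : D.check = true := by decide +kernel

theorem checkIn_D : D.checkIn = true := by decide +kernel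

theorem dp_D : dp cE cF cL cP = true := by decide +kernel

theorem faces_D : okFaces 33 cE cF = true := by decide +kernel

theorem lists_D : okLists 33 cL = true := by decide +kernel

theorem linkE_D : linkE cE D.S = true := by decide +kernel

theorem linkF_D : linkF cF D.F = true := by decide +kernel

theorem prog_D : (cP.all fun p => Nat.blt p.1 33) = true := by decide +kernel

/-- the core kills `(2, 3, 0)` and `(2, 3, 1)` -/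
theorem core_kills : Kills LL K2 := by
  refine kills_of_check D check_D checkIn_D (fun a => (cL.getD a []).toFinset) ?_
    (fun _ a b c => (a, b, c) ∈ full) (fun _ _ => kills_full) K2 ?_
  · intro a h3 hn
    exact okLists_spec lists_D a h3 hn
  · rintro φ e1 e2 e3 ⟨k1, k2, k3⟩
    have hE := linkE_spec linkE_D e1
    have hF := linkF_spec linkF_D (K := fun a b c => (a, b, c) ∈ full) e3
    have hl : ∀ a, a < 33 → φ a ∈ cL.getD a [] := by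
      intro a ha
      by_cases h : 3 ≤ a
      · exact List.mem_toFinset.1 (e2 a h ha)
      · have h' : a = 0 ∨ a = 1 ∨ a = 2 := by omega
        rcases h' with rfl | rfl | rfl
        · rw [k1]; decide +kernel
        · rw [k2]; decide +kernel
        · rcases k3 with k3 | k3
          · rw [k3]; decide +kernel
          · rw [k3]; decide +kernel
    have h5 : ∀ a, a < 33 → φ a ≤ 5 := by
      intro a ha
      by_cases h : 3 ≤ a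
      · exact LL_le (okLists_spec lists_D a h ha) (List.mem_toFinset.2 (hl a ha))
      · have h' : a = 0 ∨ a = 1 ∨ a = 2 := by omega
        rcases h' with rfl | rfl | rfl <;> omega
    refine dp_sound cE cF cL cP dp_D φ ?_ hE (sss_of_full faces_D hE h5 hF)
    intro p hp
    refine hl p.1 ?_
    have := List.all_eq_true.1 prog_D p hp
    rwa [Nat.blt_eq] at this

end Pool.H89.LC.Core33
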