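import Pool.Agent.H76.TRI.Frame
import Pool.Agent.H89.LC.Comb

/-! MP_296adc_co: on a triangle every boundary colouring with three colours of the palette
`2, 3, 4, 5` can be killed by one patch (nested octahedra). -/

namespace Pool.H89.LC

open Pool.TRI

/-- the allowed lists: both special colours `0`, `1` and two colours of the palette `2, ..., 5` -/
def LL (s : Finset ℕ) : Prop :=
  ∃ c d : ℕ, 2 ≤ c ∧ c ≤ 5 ∧ 2 ≤ d ∧ d ≤ 5 ∧ c ≠ d ∧ s = {0, 1, c, d}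

/-- killed sets of boundary colourings, as lists -/
def KL (K : List Tr) : Prop := Kills LL fun a b c => (a, b, c) ∈ K

/-- the bare triangle with some faces -/
def tri (F : List Fc) : FData where
  N := 1
  n := 3
  C := [(0, 0), (1, 0), (0, 1)]
  S := [⟨0, 1, 0, 0, 1, 0⟩, ⟨1, 2, 1, 0, 0, 1⟩, ⟨0, 2, 0, 0, 0, 1⟩]
  F := F
  A := [6, 5, 3]
  B := [2, 1, 1]

theorem kl_nil : KL [] := by
  refine kills_of_check (tri []) (by decide +kernel) (by decide +kernel) (fun _ => ∅) ?_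
    (fun _ _ _ _ => False) ?_ _ ?_
  · intro a h1 h2
    exact absurd h2 (not_lt.2 h1)
  · intro f hf
    exact absurd hf (by simp [tri])
  · intro φ _ _ _ h
    exact absurd h (by simp)

theorem kl_mono {A B : List Tr} (h : ∀ t ∈ A, t ∈ B) (hB : KL B) : KL A :=
  Kills.mono hB fun _ _ _ hk => h _ hk

theorem kl_tri (f : Fc) (hc : (tri [f]).check = true) (hi : (tri [f]).checkIn = true)
    {A : List Tr} (hA : KL A) (T : ℕ → ℕ → ℕ → Prop)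
    (hT : ∀ φ : ℕ → ℕ, (φ f.u, φ f.v, φ f.w) ∉ A → ¬ T (φ 0) (φ 1) (φ 2)) : Kills LL T := by
  refine kills_of_check (tri [f]) hc hi (fun _ => ∅) ?_ (fun _ a b c => (a, b, c) ∈ A) ?_ T ?_
  · intro a h1 h2
    exact absurd h2 (not_lt.2 h1)
  · intro g _
    exact hA
  · intro φ _ _ h3
    exact hT φ (h3 f (by simp [tri]))

theorem kl_perm (A : List Tr) (i : ℕ) (hA : KL A) : KL (A.map (pm i)) := by
  match i with
  | 0 =>
    refine kl_mono ?_ hA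
    intro t ht
    obtain ⟨s, hs, rfl⟩ := List.mem_map.1 ht
    exact hs
  | 1 =>
    refine kl_tri ⟨0, 2, 1, 0, 0, 0, 1, 1, 0⟩ (by decide +kernel) (by decide +kernel) hA _ ?_
    intro φ h1 h2
    obtain ⟨⟨a, b, c⟩, hs, he⟩ := List.mem_map.1 h2
    simp only [pm, Prod.mk.injEq] at he
    obtain ⟨e1, e2, e3⟩ := he
    apply h1
    simp only
    rw [← e1, ← e2, ← e3]
    exact hs
  | 2 =>
    refine kl_tri ⟨1, 0, 2, 1, 0, 0, 0, 0, 1⟩ (by decide +kernel) (by decide +kernel) hA _ ?_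
    intro φ h1 h2
    obtain ⟨⟨a, b, c⟩, hs, he⟩ := List.mem_map.1 h2
    simp only [pm, Prod.mk.injEq] at he
    obtain ⟨e1, e2, e3⟩ := he
    apply h1
    simp only
    rw [← e1, ← e2, ← e3]
    exact hs
  | 3 =>
    refine kl_tri ⟨2, 0, 1, 0, 1, 0, 0, 1, 0⟩ (by decide +kernel) (by decide +kernel) hA _ ?_
    intro φ h1 h2
    obtain ⟨⟨a, b, c⟩, hs, he⟩ := List.mem_map.1 h2
    simp only [pm, Prod.mk.injEq] at he
    obtain ⟨e1, e2, e3⟩ := he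
    apply h1
    simp only
    rw [← e1, ← e2, ← e3]
    exact hs
  | 4 =>
    refine kl_tri ⟨1, 2, 0, 1, 0, 0, 1, 0, 0⟩ (by decide +kernel) (by decide +kernel) hA _ ?_
    intro φ h1 h2
    obtain ⟨⟨a, b, c⟩, hs, he⟩ := List.mem_map.1 h2
    simp only [pm, Prod.mk.injEq] at he
    obtain ⟨e1, e2, e3⟩ := he
    apply h1
    simp only
    rw [← e1, ← e2, ← e3]
    exact hs
  | (n + 5) =>
    refine kl_tri ⟨2, 1, 0, 0, 1, 1, 0, 0, 0⟩ (by decide +kernel) (by decide +kernel) hA _ ?_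
    intro φ h1 h2
    obtain ⟨⟨a, b, c⟩, hs, he⟩ := List.mem_map.1 h2
    simp only [pm, Prod.mk.injEq] at he
    obtain ⟨e1, e2, e3⟩ := he
    apply h1
    simp only
    rw [← e1, ← e2, ← e3]
    exact hs

/-- the octahedron -/
def octa : FData where
  N := 10
  n := 6
  C := [(0, 0), (10, 0), (0, 10), (4, 2), (4, 4), (2, 4)]
  S := [⟨0, 1, 0, 0, 10, 0⟩, ⟨1, 2, 10, 0, 0, 10⟩, ⟨0, 2, 0, 0, 0, 10⟩,
    ⟨0, 3, 0, 0, 4, 2⟩, ⟨1, 3, 10, 0, 4, 2⟩, ⟨1, 4, 10, 0, 4, 4⟩, ⟨2, 4, 0, 10, 4, 4⟩,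
    ⟨0, 5, 0, 0, 2, 4⟩, ⟨2, 5, 0, 10, 2, 4⟩, ⟨3, 4, 4, 2, 4, 4⟩, ⟨4, 5, 4, 4, 2, 4⟩,
    ⟨3, 5, 4, 2, 2, 4⟩]
  F := [⟨0, 1, 3, 0, 0, 10, 0, 4, 2⟩, ⟨1, 2, 4, 10, 0, 0, 10, 4, 4⟩,
    ⟨2, 0, 5, 0, 10, 0, 0, 2, 4⟩]
  A := [0b101110, 0b011101, 0b110011, 0b110011, 0b101110, 0b011101]
  B := [0b100010, 0b010001, 0b010001, 0b010001, 0b100010, 0b010001]

theorem kl_oct (K : List Tr) (s : Tr) (hs : 2 ≤ s.1 ∧ 2 ≤ s.2.1 ∧ 2 ≤ s.2.2 ∧ s.1 ≤ 5 ∧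
    s.2.1 ≤ 5 ∧ s.2.2 ≤ 5 ∧ s.1 ≠ s.2.1 ∧ s.2.1 ≠ s.2.2 ∧ s.2.2 ≠ s.1)
    (h1 : KL (succ1 K s)) (h2 : KL (succ2 K s)) (h3 : KL (succ3 K s)) : KL K := by
  obtain ⟨a1, a2, a3, b1, b2, b3, c1, c2, c3⟩ := hs
  refine kills_of_check octa (by decide +kernel) (by decide +kernel)
    (fun a => if a = 3 then {0, 1, s.1, s.2.1} else if a = 4 then {0, 1, s.2.1, s.2.2} else
      {0, 1, s.2.2, s.1}) ?_
    (fun f a b c => if f.w = 3 then (a, b, c) ∈ succ1 K s else if f.w = 4 then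
      (a, b, c) ∈ succ2 K s else (a, b, c) ∈ succ3 K s) ?_ _ ?_
  · intro a ha ha'
    have h6 : a < 6 := ha'
    have h : a = 3 ∨ a = 4 ∨ a = 5 := by omega
    rcases h with rfl | rfl | rfl
    · exact ⟨s.1, s.2.1, a1, b1, a2, b2, c1, by simp⟩
    · exact ⟨s.2.1, s.2.2, a2, b2, a3, b3, c2, by simp⟩
    · exact ⟨s.2.2, s.1, a3, b3, a1, b1, c3, by simp⟩
  · intro f hf
    simp only [octa, List.mem_cons, List.not_mem_nil, or_false] at hf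
    rcases hf with rfl | rfl | rfl
    · simpa [KL] using h1
    · simpa [KL] using h2
    · simpa [KL] using h3
  · intro φ e1 e2 e3
    have e03 : φ 0 ≠ φ 3 := e1 ⟨0, 3, 0, 0, 4, 2⟩ (by simp [octa])
    have e13 : φ 1 ≠ φ 3 := e1 ⟨1, 3, 10, 0, 4, 2⟩ (by simp [octa])
    have e14 : φ 1 ≠ φ 4 := e1 ⟨1, 4, 10, 0, 4, 4⟩ (by simp [octa])
    have e24 : φ 2 ≠ φ 4 := e1 ⟨2, 4, 0, 10, 4, 4⟩ (by simp [octa])
    have e05 : φ 0 ≠ φ 5 := e1 ⟨0, 5, 0, 0, 2, 4⟩ (by simp [octa])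
    have e25 : φ 2 ≠ φ 5 := e1 ⟨2, 5, 0, 10, 2, 4⟩ (by simp [octa])
    have e34 : φ 3 ≠ φ 4 := e1 ⟨3, 4, 4, 2, 4, 4⟩ (by simp [octa])
    have e45 : φ 4 ≠ φ 5 := e1 ⟨4, 5, 4, 4, 2, 4⟩ (by simp [octa])
    have e35 : φ 3 ≠ φ 5 := e1 ⟨3, 5, 4, 2, 2, 4⟩ (by simp [octa])
    have L3 := e2 3 (by decide) (by decide)
    have L4 := e2 4 (by decide) (by decide)
    have L5 := e2 5 (by decide) (by decide)
    have k1 := e3 ⟨0, 1, 3, 0, 0, 10, 0, 4, 2⟩ (by simp [octa])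
    have k2 := e3 ⟨1, 2, 4, 10, 0, 0, 10, 4, 4⟩ (by simp [octa])
    have k3 := e3 ⟨2, 0, 5, 0, 10, 0, 0, 2, 4⟩ (by simp [octa])
    norm_num at L3 L4 L5 k1 k2 k3
    exact oct_comb K s (φ 0) (φ 1) (φ 2) (φ 3) (φ 4) (φ 5) e03.symm e13.symm e14.symm e24.symm
      e25.symm e05.symm e34 e45 e35 (by simpa using L3) (by simpa using L4) (by simpa using L5)
      (by simpa using k1) (by simpa using k2) (by simpa using k3)

/-- all palette colourings of a triangle are killed by one patch -/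
theorem kills_full : Kills LL fun a b c => (a, b, c) ∈ full :=
  full_killed KL kl_nil (fun _ _ h => kl_mono h) (fun _ _ h => kl_perm _ _ h)
    (fun K s hs h1 h2 h3 => kl_oct K s hs h1 h2 h3)

end Pool.H89.LC
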