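import Pool.Agent.H89.LC.Core33
import Pool.Agent.H89.LC.Final

/-! MP_296adc_co: the graph with its lists. -/

namespace Pool.H89.LC

open Pool.TRI

/-- A plane straight-line graph all of whose neighbourhoods are bipartite, with lists
`{0, 1, c, d}`, `c ≠ d` in `{2, 3, 4, 5}`, without a proper colouring from the lists. -/
theorem main : ∃ (n : ℕ) (G : SimpleGraph (Fin n)) (f : Fin n → ℝ × ℝ) (L : Fin n → Finset ℕ),
    Drawn G f ∧ NBip G ∧ (∀ a, LL (L a)) ∧
    ¬ ∃ φ : Fin n → ℕ, (∀ a b, G.Adj a b → φ a ≠ φ b) ∧ ∀ a, φ a ∈ L a :=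
  final_graph Core33.core_kills

end Pool.H89.LC
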